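import Mathlib
import Pool.Agent.R113.SC.Prob

/-!
# MP_7d85da_pr, Q1: the number of infinite strongly connected clusters is 0, 1 or infinite
-/

set_option autoImplicit false

open MeasureTheory

namespace Pool.Agent.Results.MP_7d85da_pr.NumberOfStrongClusters

/-- the law of the potentials `(U_a)`, `a ∈ ℤ^d`: i.i.d. uniform on `[0, 1]` -/
noncomputable def law (d : ℕ) : Measure ((Fin d → ℤ) → ℝ) :=
  Measure.infinitePi (fun _ => volume.restrict (Set.Icc (0 : ℝ) 1))

/-- the directed edge `a → b` is open: `‖a - b‖₁ = 1` and `U b < U a + ε` -/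
def Open {d : ℕ} (ε : ℝ) (U : (Fin d → ℤ) → ℝ) (a b : Fin d → ℤ) : Prop :=
  ∑ i, |a i - b i| = 1 ∧ U b < U a + ε

/-- `a` and `b` are bi-directionally connected: there are open directed paths from `a` to `b` and
from `b` to `a` (reflexive transitive closure of `Open`; repeated vertices can be removed) -/
def BiConnected {d : ℕ} (ε : ℝ) (U : (Fin d → ℤ) → ℝ) (a b : Fin d → ℤ) : Prop :=
  Relation.ReflTransGen (Open ε U) a b ∧ Relation.ReflTransGen (Open ε U) b a

/-- the set of the infinite strongly connected clusters -/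
def infiniteClusters {d : ℕ} (ε : ℝ) (U : (Fin d → ℤ) → ℝ) : Set (Set (Fin d → ℤ)) :=
  {C | ∃ a, C = {b | BiConnected ε U a b} ∧ C.Infinite}

/-- `N`: the number of infinite strongly connected clusters -/
noncomputable def N {d : ℕ} (ε : ℝ) (U : (Fin d → ℤ) → ℝ) : ℕ∞ := (infiniteClusters ε U).encard

/-- **Q1, affirmative answer**, in every dimension and for every real `ε`: almost surely `N` is
`0`, `1` or infinite; moreover `N` is almost surely equal to a constant. -/
theorem result (d : ℕ) (hd : 1 ≤ d) (ε : ℝ) :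
    (∀ᵐ U ∂(law d), N ε U = 0 ∨ N ε U = 1 ∨ N ε U = ⊤) ∧
    ∃ n : ℕ∞, (n = 0 ∨ n = 1 ∨ n = ⊤) ∧ ∀ᵐ U ∂(law d), N ε U = n :=
  ⟨Pool.Agent.R113.SC.main hd ε, Pool.Agent.R113.SC.main_const hd ε⟩

end Pool.Agent.Results.MP_7d85da_pr.NumberOfStrongClusters
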